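import Mathlib
import Pool.Agent.N984.DI.Stm

/-!
# Weak log majorization (part MAJ of project DI, helper984)
-/

set_option autoImplicit false

namespace Pool.Agent.N499.DI

open Finset
open Pool.Agent.N984.DI (MAJ)

theorem abel (n : ℕ) (c d : ℕ → ℝ) (hc0 : ∀ i < n, 0 ≤ c i) (hc : ∀ i, i + 1 < n → c (i + 1) ≤ c i)
    (hD : ∀ k ≤ n, 0 ≤ ∑ i ∈ range k, d i) : 0 ≤ ∑ i ∈ range n, c i * d i := by
  have key : ∀ k, k + 1 ≤ n →
      c k * ∑ i ∈ range (k + 1), d i ≤ ∑ i ∈ range (k + 1), c i * d i := by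
    intro k
    induction k with
    | zero =>
      intro _
      simp
    | succ k ih =>
      intro hk
      have h1 := ih (by omega)
      rw [sum_range_succ (fun i => c i * d i), sum_range_succ d (k + 1)]
      have h2 := hD (k + 1) (by omega)
      have h3 := hc k (by omega)
      nlinarith
  rcases Nat.eq_zero_or_pos n with h | h
  · subst h
    simp
  · obtain ⟨k, rfl⟩ : ∃ k, n = k + 1 := ⟨n - 1, by omega⟩
    exact (mul_nonneg (hc0 k (by omega)) (hD (k + 1) le_rfl)).trans (key k le_rfl)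

theorem one_term (x y : ℝ) (hx : 0 < x) (hy : 0 < y) :
    x / (1 + x) * (Real.log y - Real.log x) ≤ Real.log (1 + y) - Real.log (1 + x) := by
  have h1 := Real.geom_mean_le_arith_mean2_weighted (w₁ := x / (1 + x)) (w₂ := 1 / (1 + x))
    (p₁ := y / x) (p₂ := 1) (by positivity) (by positivity) (by positivity) (by positivity)
    (by field_simp; ring)
  rw [Real.one_rpow, mul_one, mul_one] at h1
  have h2 : x / (1 + x) * (y / x) + 1 / (1 + x) = (1 + y) / (1 + x) := by
    field_simp
    ring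
  rw [h2] at h1
  have h3 := Real.log_le_log (Real.rpow_pos_of_pos (by positivity) _) h1
  rw [Real.log_rpow (by positivity), Real.log_div hy.ne' hx.ne',
    Real.log_div (by positivity) (by positivity)] at h3
  exact h3

theorem core (n : ℕ) (X Y : ℕ → ℝ) (hX : ∀ i, 0 < X i) (hY : ∀ i, 0 < Y i)
    (hXa : ∀ i, i + 1 < n → X (i + 1) ≤ X i)
    (hP : ∀ k ≤ n, ∏ i ∈ range k, X i ≤ ∏ i ∈ range k, Y i) :
    ∏ i ∈ range n, (1 + X i) ≤ ∏ i ∈ range n, (1 + Y i) := by
  have h1 := abel n (fun i => X i / (1 + X i)) (fun i => Real.log (Y i) - Real.log (X i))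
    (fun i _ => by
      have := hX i
      positivity)
    (fun i hi => by
      have a1 := hX i
      have a2 := hX (i + 1)
      have a3 := hXa i hi
      show X (i + 1) / (1 + X (i + 1)) ≤ X i / (1 + X i)
      rw [div_le_div_iff₀ (by positivity) (by positivity)]
      nlinarith)
    (fun k hk => by
      rw [sum_sub_distrib, ← Real.log_prod (fun i _ => (hY i).ne'),
        ← Real.log_prod (fun i _ => (hX i).ne')]
      exact sub_nonneg.2 (Real.log_le_log (prod_pos fun i _ => hX i) (hP k hk)))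
  have h2 : ∑ i ∈ range n, X i / (1 + X i) * (Real.log (Y i) - Real.log (X i)) ≤
      ∑ i ∈ range n, (Real.log (1 + Y i) - Real.log (1 + X i)) :=
    sum_le_sum fun i _ => one_term (X i) (Y i) (hX i) (hY i)
  have h3 : ∀ i, 0 < 1 + X i := fun i => by linarith [hX i]
  have h4 : ∀ i, 0 < 1 + Y i := fun i => by linarith [hY i]
  rw [sum_sub_distrib, ← Real.log_prod (fun i _ => (h4 i).ne'),
    ← Real.log_prod (fun i _ => (h3 i).ne')] at h2
  have h5 : Real.log (∏ i ∈ range n, (1 + X i)) ≤ Real.log (∏ i ∈ range n, (1 + Y i)) := by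
    linarith
  exact (Real.log_le_log_iff (prod_pos fun i _ => h3 i) (prod_pos fun i _ => h4 i)).1 h5

/-- extension by one -/
noncomputable def ext1 {n : ℕ} (x : Fin n → ℝ) (i : ℕ) : ℝ := if h : i < n then x ⟨i, h⟩ else 1

theorem ext1_fin {n : ℕ} (x : Fin n → ℝ) (i : Fin n) : ext1 x i = x i := by
  unfold ext1
  rw [dif_pos i.2]

theorem prod_ext {n : ℕ} (x : Fin n → ℝ) (k : ℕ) (hk : k ≤ n) :
    ∏ i ∈ univ.filter (fun i : Fin n => (i : ℕ) < k), x i = ∏ i ∈ range k, ext1 x i := by
  rw [prod_filter]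
  have e1 : ∏ i : Fin n, (if (i : ℕ) < k then x i else 1) =
      ∏ i : Fin n, (fun j : ℕ => if j < k then ext1 x j else 1) i := by
    apply prod_congr rfl
    intro i _
    show _ = if (i : ℕ) < k then ext1 x i else 1
    rw [ext1_fin]
  rw [e1, Fin.prod_univ_eq_prod_range (fun j : ℕ => if j < k then ext1 x j else 1), ← prod_filter]
  congr 1
  ext j
  simp only [mem_filter, mem_range]
  omega

/-- the part MAJ -/
theorem t_MAJ : MAJ := by
  intro n x y hx hy hxa _ hP
  have hpos : ∀ z : Fin n → ℝ, (∀ i, 0 < z i) → ∀ i, 0 < ext1 z i := by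
    intro z hz i
    unfold ext1
    split_ifs with h
    · exact hz _
    · norm_num
  have h1 := core n (ext1 x) (ext1 y) (hpos x hx) (hpos y hy) (fun i hi => by
    unfold ext1
    rw [dif_pos hi, dif_pos (by omega : i < n)]
    exact hxa (Fin.mk_le_mk.2 (Nat.le_succ i))) (fun k hk => by
    rw [← prod_ext x k hk, ← prod_ext y k hk]
    exact hP k hk)
  have e : ∀ z : Fin n → ℝ, ∏ i ∈ range n, (1 + ext1 z i) = ∏ i, (1 + z i) := by
    intro z
    rw [← Fin.prod_univ_eq_prod_range (fun j : ℕ => 1 + ext1 z j)]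
    apply prod_congr rfl
    intro i _
    rw [ext1_fin]
  rw [e, e] at h1
  exact h1

end Pool.Agent.N499.DI
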